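import Mathlib

set_option autoImplicit false

namespace Pool.Agent.Results.MP_118fda_co.AlternatingMycielski

/-- adjacency of the generalized Mycielski graph: `some (u, i)` is the vertex `(u, i + 1)` and
`none` is `z` -/
def mycAdj {V : Type} (G : SimpleGraph V) (r : ℕ) :
    Option (V × Fin r) → Option (V × Fin r) → Prop
  | some (u, i), some (v, j) =>
      G.Adj u v ∧ (((i : ℕ) = 0 ∧ (j : ℕ) = 0) ∨ (j : ℕ) = i + 1 ∨ (i : ℕ) = j + 1)
  | some (_, i), none => (i : ℕ) + 1 = r
  | none, some (_, i) => (i : ℕ) + 1 = r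
  | none, none => False

/-- the generalized Mycielski graph `M_r(G)` -/
def myc {V : Type} (G : SimpleGraph V) (r : ℕ) : SimpleGraph (Option (V × Fin r)) where
  Adj := mycAdj G r
  symm := ⟨by
    rintro (_ | ⟨u, i⟩) (_ | ⟨v, j⟩) h
    · exact h
    · exact h
    · exact h
    · refine ⟨h.1.symm, ?_⟩
      rcases h.2 with ⟨h1, h2⟩ | h1 | h1
      · exact Or.inl ⟨h2, h1⟩
      · exact Or.inr (Or.inr h1)
      · exact Or.inr (Or.inl h1)⟩
  loopless := ⟨by
    rintro (_ | ⟨u, i⟩) h
    · exact h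
    · exact G.loopless.irrefl _ h.1⟩

/-- a cycle of length `L`, given by an injective cyclic sequence of vertices with consecutive ones
adjacent -/
def IsCyc {V : Type} (G : SimpleGraph V) (L : ℕ) (c : ZMod L → V) : Prop :=
  3 ≤ L ∧ Function.Injective c ∧ ∀ i, G.Adj (c i) (c (i + 1))

/-- a shortest odd cycle -/
def IsShortestOddCyc {V : Type} (G : SimpleGraph V) (L : ℕ) (c : ZMod L → V) : Prop :=
  IsCyc G L c ∧ Odd L ∧ ∀ (L' : ℕ) (c' : ZMod L' → V), IsCyc G L' c' → Odd L' → L ≤ L'

/-- `O` is an orientation of `G`: exactly one direction for each edge -/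
def IsOrientation {V : Type} (G : SimpleGraph V) (O : V → V → Prop) : Prop :=
  (∀ u v, O u v → G.Adj u v) ∧ ∀ u v, G.Adj u v → (O u v ↔ ¬ O v u)

/-- the cyclic sequence is alternating in the orientation: at most one index is neither a source
nor a sink of the cycle -/
def Alternating {V : Type} (O : V → V → Prop) (L : ℕ) (c : ZMod L → V) : Prop :=
  ∀ i j, ¬ (O (c i) (c (i - 1)) ∧ O (c i) (c (i + 1))) →
    ¬ (O (c (i - 1)) (c i) ∧ O (c (i + 1)) (c i)) →
    ¬ (O (c j) (c (j - 1)) ∧ O (c j) (c (j + 1))) →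
    ¬ (O (c (j - 1)) (c j) ∧ O (c (j + 1)) (c j)) → i = j

section cut
variable {V : Type} {G : SimpleGraph V}

/-- orientation from a vertex bipartition `s` and an injective numbering `e` -/
def ori (G : SimpleGraph V) (s : V → Bool) (e : V → ℕ) (u v : V) : Prop :=
  G.Adj u v ∧ ((s u = true ∧ s v = false) ∨ (s u = s v ∧ e u < e v))

lemma ori_isOrientation (s : V → Bool) (e : V → ℕ) (he : Function.Injective e) :
    IsOrientation G (ori G s e) := by
  refine ⟨fun u v h => h.1, fun u v h => ?_⟩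
  have hne : e u ≠ e v := fun h' => h.ne (he h')
  unfold ori
  constructor
  · rintro ⟨_, h1⟩ ⟨_, h2⟩
    rcases h1 with ⟨h1, h1'⟩ | ⟨h1, h1'⟩ <;> rcases h2 with ⟨h2, h2'⟩ | ⟨h2, h2'⟩
    · rw [h1] at h2'; exact absurd h2' (by decide)
    · rw [h1, h1'] at h2; exact absurd h2 (by decide)
    · rw [h2, h2'] at h1; exact absurd h1 (by decide)
    · omega
  · intro h1
    refine ⟨h, ?_⟩
    by_contra h2
    apply h1
    refine ⟨h.symm, ?_⟩
    push Not at h2
    cases hu : s u <;> cases hv : s v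
    · right; exact ⟨rfl, by have := h2.2 (by rw [hu, hv]); omega⟩
    · left; exact ⟨rfl, rfl⟩
    · exact absurd hv (h2.1 hu)
    · right; exact ⟨rfl, by have := h2.2 (by rw [hu, hv]); omega⟩

/-- at most one edge of the cyclic sequence is monochromatic -/
def Uni (s : V → Bool) (L : ℕ) (c : ZMod L → V) : Prop :=
  ∀ i j, s (c i) = s (c (i + 1)) → s (c j) = s (c (j + 1)) → i = j

lemma alternating_of_uni (s : V → Bool) (e : V → ℕ) (he : Function.Injective e) (L : ℕ)
    (c : ZMod L → V) (hc : IsCyc G L c) (hU : Uni s L c) : Alternating (ori G s e) L c := by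
  obtain ⟨hL, hinj, hadj⟩ := hc
  have : NeZero L := ⟨by omega⟩
  have : Fact (1 < L) := ⟨by omega⟩
  have hadj' : ∀ i, G.Adj (c i) (c (i - 1)) := by
    intro i
    have := (hadj (i - 1)).symm
    rwa [sub_add_cancel] at this
  -- bichromatic on both sides implies source or sink
  have key : ∀ i, ¬ (ori G s e (c i) (c (i - 1)) ∧ ori G s e (c i) (c (i + 1))) →
      ¬ (ori G s e (c (i - 1)) (c i) ∧ ori G s e (c (i + 1)) (c i)) →
      s (c (i - 1)) = s (c i) ∨ s (c i) = s (c (i + 1)) := by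
    intro i h1 h2
    by_contra hcon
    push Not at hcon
    obtain ⟨h3, h4⟩ := hcon
    cases hi : s (c i)
    · apply h2
      rw [hi] at h3 h4
      refine ⟨⟨(hadj' i).symm, Or.inl ⟨?_, hi⟩⟩, ⟨(hadj i).symm, Or.inl ⟨?_, hi⟩⟩⟩
      · cases h : s (c (i - 1))
        · exact absurd h h3
        · rfl
      · cases h : s (c (i + 1))
        · exact absurd h.symm h4
        · rfl
    · apply h1
      rw [hi] at h3 h4
      refine ⟨⟨hadj' i, Or.inl ⟨hi, ?_⟩⟩, ⟨hadj i, Or.inl ⟨hi, ?_⟩⟩⟩
      · cases h : s (c (i - 1))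
        · rfl
        · exact absurd h h3
      · cases h : s (c (i + 1))
        · rfl
        · exact absurd h.symm h4
  -- consecutive exceptional indices are impossible
  have h10 : (1 : ZMod L) ≠ 0 := one_ne_zero
  have h20 : (2 : ZMod L) ≠ 0 := by
    intro h
    have h' : ((2 : ℕ) : ZMod L) = 0 := by exact_mod_cast h
    rw [ZMod.natCast_eq_zero_iff] at h'
    have := Nat.le_of_dvd (by norm_num) h'
    omega
  have cons : ∀ m, s (c m) = s (c (m + 1)) →
      ¬ (ori G s e (c m) (c (m - 1)) ∧ ori G s e (c m) (c (m + 1))) →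
      ¬ (ori G s e (c (m - 1)) (c m) ∧ ori G s e (c (m + 1)) (c m)) →
      ¬ (ori G s e (c (m + 1)) (c (m + 1 - 1)) ∧ ori G s e (c (m + 1)) (c (m + 1 + 1))) →
      ¬ (ori G s e (c (m + 1 - 1)) (c (m + 1)) ∧ ori G s e (c (m + 1 + 1)) (c (m + 1))) →
      False := by
    intro m hm h1 h2 h3 h4
    rw [add_sub_cancel_right] at h3 h4
    have b1 : s (c (m - 1)) ≠ s (c m) := by
      intro h
      have h' : s (c (m - 1)) = s (c (m - 1 + 1)) := by rwa [sub_add_cancel]
      have := hU _ _ h' hm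
      apply h10
      have h5 : m - 1 + 1 = m + 1 := by rw [this]
      rw [sub_add_cancel] at h5
      exact (left_eq_add.1 h5)
    have b2 : s (c (m + 1)) ≠ s (c (m + 1 + 1)) := by
      intro h
      have := hU _ _ h hm
      exact h10 (add_eq_left.1 this)
    have hne : e (c m) ≠ e (c (m + 1)) := fun h => (hadj m).ne (he h)
    cases hb : s (c m)
    · have hb' : s (c (m + 1)) = false := by rw [← hm, hb]
      have b1' : s (c (m - 1)) = true := by
        cases h : s (c (m - 1))
        · exact absurd (h.trans hb.symm) b1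
        · rfl
      have b2' : s (c (m + 1 + 1)) = true := by
        cases h : s (c (m + 1 + 1))
        · exact absurd (hb'.trans h.symm) b2
        · rfl
      rcases lt_or_gt_of_ne hne with hlt | hlt
      · apply h4
        exact ⟨⟨hadj m, Or.inr ⟨hm, hlt⟩⟩, ⟨(hadj (m + 1)).symm, Or.inl ⟨b2', hb'⟩⟩⟩
      · apply h2
        exact ⟨⟨(hadj' m).symm, Or.inl ⟨b1', hb⟩⟩, ⟨(hadj m).symm, Or.inr ⟨hm.symm, hlt⟩⟩⟩
    · have hb' : s (c (m + 1)) = true := by rw [← hm, hb]
      have b1' : s (c (m - 1)) = false := by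
        cases h : s (c (m - 1))
        · rfl
        · exact absurd (h.trans hb.symm) b1
      have b2' : s (c (m + 1 + 1)) = false := by
        cases h : s (c (m + 1 + 1))
        · rfl
        · exact absurd (hb'.trans h.symm) b2
      rcases lt_or_gt_of_ne hne with hlt | hlt
      · apply h1
        exact ⟨⟨hadj' m, Or.inl ⟨hb, b1'⟩⟩, ⟨hadj m, Or.inr ⟨hm, hlt⟩⟩⟩
      · apply h3
        exact ⟨⟨(hadj m).symm, Or.inr ⟨hm.symm, hlt⟩⟩, ⟨hadj (m + 1), Or.inl ⟨hb', b2'⟩⟩⟩
  intro i j hi1 hi2 hj1 hj2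
  have mk : ∀ x, s (c (x - 1)) = s (c x) → s (c (x - 1)) = s (c (x - 1 + 1)) := by
    intro x h; rwa [sub_add_cancel]
  rcases key i hi1 hi2 with hi | hi <;> rcases key j hj1 hj2 with hj | hj
  · have := hU _ _ (mk i hi) (mk j hj)
    exact sub_left_injective this
  · have := hU _ _ (mk i hi) hj
    exfalso
    have e1 : i = j + 1 := by rw [← this, sub_add_cancel]
    subst e1
    exact cons j hj hj1 hj2 hi1 hi2
  · have := hU _ _ hi (mk j hj)
    exfalso
    have e1 : j = i + 1 := by rw [this, sub_add_cancel]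
    subst e1
    exact cons i hi hi1 hi2 hj1 hj2
  · exact hU _ _ hi hj

lemma uni_shift (s : V → Bool) (L : ℕ) (c : ZMod L → V) (a : ZMod L)
    (h : Uni s L (fun i => c (i + a))) : Uni s L c := by
  intro i j hi hj
  have e : ∀ x, c (x - a + 1 + a) = c (x + 1) := by
    intro x; congr 1; ring
  have := h (i - a) (j - a) (by simp only [sub_add_cancel]; rw [e]; exact hi)
    (by simp only [sub_add_cancel]; rw [e]; exact hj)
  exact sub_left_injective this

lemma uni_neg (s : V → Bool) (L : ℕ) (c : ZMod L → V)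
    (h : Uni s L (fun i => c (-i))) : Uni s L c := by
  intro i j hi hj
  have e : ∀ x : ZMod L, -(-x - 1) = x + 1 := by intro x; ring
  have e' : ∀ x : ZMod L, -(-x - 1 + 1) = x := by intro x; ring
  have := h (-i - 1) (-j - 1) (by simp only [e, e']; exact hi.symm)
    (by simp only [e, e']; exact hj.symm)
  have := sub_left_injective this
  exact neg_injective this

end cut

section nums

/-- distance to the pair of central positions -/
def dd (k x : ℕ) : ℕ := if x = 0 then 0 else min (x - 1) (2 * k + 1 - x)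

/-- the cut -/
def SS (k x l : ℕ) : Bool := if dd k x < l then decide (l % 2 = 1) else decide (x % 2 = 1)

/-- adjacency of positions in the cycle of length `2k+1` -/
def cadj (k x y : ℕ) : Prop :=
  x < 2 * k + 1 ∧ y < 2 * k + 1 ∧
    (y = x + 1 ∨ x = y + 1 ∨ (x = 0 ∧ y = 2 * k) ∨ (y = 0 ∧ x = 2 * k))

/-- compatibility of levels -/
def ladj (l m : ℕ) : Prop := (l = 1 ∧ m = 1) ∨ m = l + 1 ∨ l = m + 1

lemma dstep {k x y : ℕ} (h : cadj k x y) :
    dd k y = dd k x + 1 ∨ dd k x = dd k y + 1 ∨ (dd k x = 0 ∧ dd k y = 0) := by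
  unfold cadj at h; unfold dd; split_ifs <;> omega

lemma dpar {k x : ℕ} (hx : x < 2 * k + 1) (h : 1 ≤ dd k x) :
    x % 2 = (1 + dd k x) % 2 := by
  unfold dd at *; split_ifs at * <;> omega

lemma SS_class {k x y l m : ℕ} (h : cadj k x y) (hl : 1 ≤ l) (hm : 1 ≤ m)
    (hlm : ladj l m) (hS : SS k x l = SS k y m) :
    (l = 1 ∧ m = 1 ∧ dd k x = 0 ∧ dd k y = 0) ∨ (m = l + 1 ∧ dd k x = l ∧ dd k y + 1 = l) ∨
      (l = m + 1 ∧ dd k y = m ∧ dd k x + 1 = m) := by
  have h1 := dstep h
  have h2 : 1 ≤ dd k x → x % 2 = (1 + dd k x) % 2 := dpar h.1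
  have h3 : 1 ≤ dd k y → y % 2 = (1 + dd k y) % 2 := dpar h.2.1
  clear h
  unfold ladj at hlm
  unfold SS at hS
  generalize dd k x = dx at *
  generalize dd k y = dy at *
  by_cases hx : dx < l <;> by_cases hy : dy < m
  · rw [if_pos hx, if_pos hy, decide_eq_decide] at hS
    rcases hlm with ⟨g1, g2⟩ | g1 | g1
    · left; omega
    · exfalso; subst g1; omega
    · exfalso; subst g1; omega
  · rw [if_pos hx, if_neg hy, decide_eq_decide] at hS
    have h3' := h3 (by omega)
    rw [h3'] at hS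
    rcases hlm with ⟨g1, g2⟩ | g1 | g1
    · exfalso; subst g1 g2; omega
    · exfalso; subst g1; omega
    · right; right; subst g1; omega
  · rw [if_neg hx, if_pos hy, decide_eq_decide] at hS
    have h2' := h2 (by omega)
    rw [h2'] at hS
    rcases hlm with ⟨g1, g2⟩ | g1 | g1
    · exfalso; subst g1 g2; omega
    · right; left; subst g1; omega
    · exfalso; subst g1; omega
  · rw [if_neg hx, if_neg hy, decide_eq_decide] at hS
    have h2' := h2 (by omega)
    have h3' := h3 (by omega)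
    rw [h2', h3'] at hS
    exfalso
    rcases h1 with g1 | g1 | g1 <;> omega

lemma SS_top {k x r : ℕ} (hx : x < 2 * k + 1) (hr : 1 ≤ r)
    (hS : SS k x r = SS k 0 (r + 1)) : r ≤ dd k x ∧ dd k x % 2 = r % 2 := by
  have h2 : 1 ≤ dd k x → x % 2 = (1 + dd k x) % 2 := dpar hx
  have h0 : dd k 0 = 0 := by simp [dd]
  unfold SS at hS
  rw [h0] at hS
  split_ifs at hS <;> rw [decide_eq_decide] at hS <;> omega

lemma lip (y : ℕ → ℕ) (N : ℕ) (hl : ∀ t < N, ladj (y t) (y (t + 1))) (a : ℕ) :
    ∀ m, a + m ≤ N → y (a + m) ≤ y a + m ∧ y a ≤ y (a + m) + m := by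
  intro m
  induction m with
  | zero => intro _; simp
  | succ m ih =>
      intro h
      have := ih (by omega)
      have h2 := hl (a + m) (by omega)
      unfold ladj at h2
      rw [show a + (m + 1) = a + m + 1 by ring]
      omega

lemma parb (y : ℕ → ℕ) (N : ℕ) (hl : ∀ t < N, ladj (y t) (y (t + 1))) (a : ℕ) :
    ∀ m, a + m ≤ N → m < y (a + m) → (y a + y (a + m)) % 2 = m % 2 := by
  intro m
  induction m with
  | zero => intro _ _; simp; omega
  | succ m ih =>
      intro h h'
      have h2 := hl (a + m) (by omega)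
      unfold ladj at h2
      rw [show a + (m + 1) = a + m + 1 by ring] at *
      have := ih (by omega) (by omega)
      omega

lemma para (y : ℕ → ℕ) (N : ℕ) (hl : ∀ t < N, ladj (y t) (y (t + 1))) (a : ℕ) :
    ∀ m, a + m ≤ N → m < y a → (y a + y (a + m)) % 2 = m % 2 := by
  intro m
  induction m with
  | zero => intro _ _; simp; omega
  | succ m ih =>
      intro h h'
      have h2 := hl (a + m) (by omega)
      have h3 := lip y N hl a m (by omega)
      unfold ladj at h2
      rw [show a + (m + 1) = a + m + 1 by ring] at *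
      have := ih (by omega) (by omega)
      omega

/-- numeric core of the case of a cycle avoiding `z` -/
lemma caseA {k : ℕ} (hk : 1 ≤ k) (x y : ℕ → ℕ) (hx : ∀ t, t < 2 * k + 1 → x t = t)
    (hxn : x (2 * k + 1) = 0) (hy1 : ∀ t, 1 ≤ y t) (hyn : y (2 * k + 1) = y 0)
    (hl : ∀ t < 2 * k + 1, ladj (y t) (y (t + 1))) (a b : ℕ) (hab : a < b) (hb : b < 2 * k + 1)
    (ha : SS k (x a) (y a) = SS k (x (a + 1)) (y (a + 1)))
    (hb' : SS k (x b) (y b) = SS k (x (b + 1)) (y (b + 1))) : False := by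
  -- description of monochromatic edges
  have key : ∀ t, t < 2 * k + 1 → SS k (x t) (y t) = SS k (x (t + 1)) (y (t + 1)) →
      (t = 0 ∧ y 0 = 1 ∧ y 1 = 1) ∨ (1 ≤ t ∧ t ≤ k ∧ y t = t + 1 ∧ y (t + 1) = t) ∨
      (k + 1 ≤ t ∧ y t + t = 2 * k + 1 ∧ y (t + 1) + t = 2 * k + 2) := by
    intro t ht h
    have hx1 : cadj k (x t) (x (t + 1)) := by
      unfold cadj
      rw [hx t ht]
      by_cases h2 : t + 1 < 2 * k + 1
      · rw [hx _ h2]; omega
      · have : t + 1 = 2 * k + 1 := by omega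
        rw [this, hxn]; omega
    have h3 := SS_class hx1 (hy1 _) (hy1 _) (hl t ht) h
    rw [hx t ht] at h3
    by_cases h2 : t + 1 < 2 * k + 1
    · rw [hx _ h2] at h3
      by_cases h0 : t = 0
      · subst h0
        left
        unfold dd at h3
        simp only [if_true, zero_add, one_ne_zero, if_false] at h3
        have : min (1 - 1) (2 * k + 1 - 1) = 0 := by simp
        omega
      · unfold dd at h3
        rw [if_neg h0, if_neg (by omega)] at h3
        omega
    · have h4 : t + 1 = 2 * k + 1 := by omega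
      rw [h4, hxn] at h3
      rw [h4]
      unfold dd at h3
      rw [if_neg (by omega), if_pos rfl] at h3
      omega
  have ka := key a (by omega) ha
  have kb := key b hb hb'
  have h01 := hl 0 (by omega)
  unfold ladj at h01
  rw [zero_add] at h01
  -- lower bounds and parity of `y 1` from a right edge
  have right : ∀ t, 1 ≤ t → t ≤ k → y t = t + 1 → 2 ≤ y 1 ∧ y 1 % 2 = 0 := by
    intro t h1 h2 h3
    have h4 := lip y (2 * k + 1) hl 1 (t - 1) (by omega)
    have h5 := parb y (2 * k + 1) hl 1 (t - 1) (by omega)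
    rw [show 1 + (t - 1) = t by omega] at h4 h5
    have h6 := h5 (by omega)
    omega
  have left : ∀ t, k + 1 ≤ t → t < 2 * k + 1 → y (t + 1) + t = 2 * k + 2 →
      2 ≤ y 0 ∧ y 0 % 2 = 0 := by
    intro t h1 h2 h3
    have h4 := lip y (2 * k + 1) hl (t + 1) (2 * k - t) (by omega)
    have h5 := para y (2 * k + 1) hl (t + 1) (2 * k - t) (by omega)
    rw [show t + 1 + (2 * k - t) = 2 * k + 1 by omega, hyn] at h4 h5
    have h6 := h5 (by omega)
    omega
  rcases ka with ⟨h1, h2, h3⟩ | ⟨h1, h2, h3, h4⟩ | ⟨h1, h2, h3⟩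
  · rcases kb with ⟨g1, g2, g3⟩ | ⟨g1, g2, g3, g4⟩ | ⟨g1, g2, g3⟩
    · omega
    · have := right b g1 g2 g3; omega
    · have := left b g1 hb g3; omega
  · rcases kb with ⟨g1, g2, g3⟩ | ⟨g1, g2, g3, g4⟩ | ⟨g1, g2, g3⟩
    · omega
    · have := lip y (2 * k + 1) hl (a + 1) (b - (a + 1)) (by omega)
      rw [show a + 1 + (b - (a + 1)) = b by omega] at this
      omega
    · have := right a h1 h2 h3
      have := left b g1 hb g3
      omega
  · rcases kb with ⟨g1, g2, g3⟩ | ⟨g1, g2, g3, g4⟩ | ⟨g1, g2, g3⟩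
    · omega
    · omega
    · have := lip y (2 * k + 1) hl (a + 1) (b - (a + 1)) (by omega)
      rw [show a + 1 + (b - (a + 1)) = b by omega] at this
      omega

/-- one branch of a cycle through `z`: distance values `D 1, …, D r` at levels `r, …, 1` -/
lemma branch_mono {r : ℕ} (D : ℕ → ℕ)
    (hD : ∀ t, 1 ≤ t → t < r → D (t + 1) = D t + 1 ∨ D t = D (t + 1) + 1 ∨
      (D t = 0 ∧ D (t + 1) = 0)) (a : ℕ) (ha : 1 ≤ a) :
    ∀ m, a + m ≤ r → r + 1 ≤ D a + a → r + 1 ≤ D (a + m) + (a + m) ∧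
      (D a + D (a + m)) % 2 = m % 2 := by
  intro m
  induction m with
  | zero => intro _ _; constructor <;> simp_all; omega
  | succ m ih =>
      intro h h'
      have h1 := ih (by omega) h'
      have h2 := hD (a + m) (by omega) (by omega)
      rw [show a + (m + 1) = a + m + 1 by ring]
      omega

/-- monochromatic edges of a branch -/
def BM (r : ℕ) (D : ℕ → ℕ) (t : ℕ) : Prop :=
  (t = 0 ∧ r ≤ D 1 ∧ D 1 % 2 = r % 2) ∨ (1 ≤ t ∧ D (t + 1) + t = r ∧ D t + 1 + t = r)

lemma branch_odd {r : ℕ} (D : ℕ → ℕ)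
    (hD : ∀ t, 1 ≤ t → t < r → D (t + 1) = D t + 1 ∨ D t = D (t + 1) + 1 ∨
      (D t = 0 ∧ D (t + 1) = 0)) (t : ℕ) (ht : t < r) (h : BM r D t) : D r % 2 = 1 := by
  rcases h with ⟨h1, h2, h3⟩ | ⟨h1, h2, h3⟩
  · have := branch_mono D hD 1 (by omega) (r - 1) (by omega) (by omega)
    rw [show 1 + (r - 1) = r by omega] at this
    omega
  · have := branch_mono D hD (t + 1) (by omega) (r - (t + 1)) (by omega) (by omega)
    rw [show t + 1 + (r - (t + 1)) = r by omega] at this
    omega

lemma branch_uni {r : ℕ} (D : ℕ → ℕ)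
    (hD : ∀ t, 1 ≤ t → t < r → D (t + 1) = D t + 1 ∨ D t = D (t + 1) + 1 ∨
      (D t = 0 ∧ D (t + 1) = 0)) (t u : ℕ) (htu : t < u) (hu : u < r) (h : BM r D t)
    (h' : BM r D u) : False := by
  rcases h' with ⟨g1, g2, g3⟩ | ⟨g1, g2, g3⟩
  · omega
  rcases h with ⟨h1, h2, h3⟩ | ⟨h1, h2, h3⟩
  · have := branch_mono D hD 1 (by omega) (u - 1) (by omega) (by omega)
    rw [show 1 + (u - 1) = u by omega] at this
    omega
  · have := branch_mono D hD (t + 1) (by omega) (u - (t + 1)) (by omega) (by omega)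
    rw [show t + 1 + (u - (t + 1)) = u by omega] at this
    omega


/-- numeric core of the case of a cycle through `z` -/
lemma caseB {k r : ℕ} (hr : 1 ≤ r) (x y : ℕ → ℕ) (hx0 : x 0 = 0)
    (hxn : x (2 * r + 1) = 0) (hya : ∀ t, t ≤ r → y t + t = r + 1)
    (hyb : ∀ t, r + 1 ≤ t → t ≤ 2 * r + 1 → y t + r = t)
    (hadj : ∀ t, 1 ≤ t → t < 2 * r → cadj k (x t) (x (t + 1)))
    (hlt : ∀ t, 1 ≤ t → t ≤ 2 * r → x t < 2 * k + 1)
    (a b : ℕ) (hab : a < b) (hb : b < 2 * r + 1)
    (ha : SS k (x a) (y a) = SS k (x (a + 1)) (y (a + 1)))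
    (hb' : SS k (x b) (y b) = SS k (x (b + 1)) (y (b + 1))) : False := by
  have key : ∀ t, t < 2 * r + 1 → SS k (x t) (y t) = SS k (x (t + 1)) (y (t + 1)) →
      (t < r ∧ BM r (fun t => dd k (x t)) t) ∨
      (t = r ∧ dd k (x r) = 0 ∧ dd k (x (r + 1)) = 0) ∨
      (r < t ∧ BM r (fun t => dd k (x (2 * r + 1 - t))) (2 * r - t)) := by
    intro t ht h
    by_cases h0 : t = 0
    · subst h0
      left
      refine ⟨by omega, Or.inl ⟨rfl, ?_⟩⟩
      have h1 := hya 0 (by omega)
      have h2 := hya 1 (by omega)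
      rw [zero_add] at h
      rw [hx0, show y 0 = r + 1 by omega, show y 1 = r by omega] at h
      exact SS_top (hlt 1 le_rfl (by omega)) hr h.symm
    by_cases h1 : t = 2 * r
    · right; right
      refine ⟨by omega, Or.inl ⟨by omega, ?_⟩⟩
      have h2 := hyb t (by omega) (by omega)
      have h3 := hyb (t + 1) (by omega) (by omega)
      have h4 : x (t + 1) = 0 := by rw [h1]; exact hxn
      rw [h4, show y t = r by omega, show y (t + 1) = r + 1 by omega] at h
      have := SS_top (hlt t (by omega) (by omega)) hr h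
      simpa [h1] using this
    have hc := hadj t (by omega) (by omega)
    rcases lt_trichotomy t r with h2 | h2 | h2
    · left
      refine ⟨h2, Or.inr ⟨by omega, ?_⟩⟩
      have g1 := hya t (by omega)
      have g2 := hya (t + 1) (by omega)
      have g3 := SS_class hc (by omega) (by omega) (by unfold ladj; omega) h
      show dd k (x (t + 1)) + t = r ∧ dd k (x t) + 1 + t = r
      omega
    · right; left
      subst h2
      have g1 := hya t (by omega)
      have g2 := hyb (t + 1) (by omega) (by omega)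
      have g3 := SS_class hc (by omega) (by omega) (by unfold ladj; omega) h
      omega
    · right; right
      refine ⟨h2, Or.inr ⟨by omega, ?_⟩⟩
      have g1 := hyb t (by omega) (by omega)
      have g2 := hyb (t + 1) (by omega) (by omega)
      have g3 := SS_class hc (by omega) (by omega) (by unfold ladj; omega) h
      show dd k (x (2 * r + 1 - (2 * r - t + 1))) + (2 * r - t) = r ∧
        dd k (x (2 * r + 1 - (2 * r - t))) + 1 + (2 * r - t) = r
      rw [show 2 * r + 1 - (2 * r - t + 1) = t by omega,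
        show 2 * r + 1 - (2 * r - t) = t + 1 by omega]
      omega
  have hD1 : ∀ t, 1 ≤ t → t < r → dd k (x (t + 1)) = dd k (x t) + 1 ∨
      dd k (x t) = dd k (x (t + 1)) + 1 ∨ (dd k (x t) = 0 ∧ dd k (x (t + 1)) = 0) := by
    intro t h1 h2
    exact dstep (hadj t h1 (by omega))
  have hD2 : ∀ t, 1 ≤ t → t < r → dd k (x (2 * r + 1 - (t + 1))) =
      dd k (x (2 * r + 1 - t)) + 1 ∨
      dd k (x (2 * r + 1 - t)) = dd k (x (2 * r + 1 - (t + 1))) + 1 ∨
      (dd k (x (2 * r + 1 - t)) = 0 ∧ dd k (x (2 * r + 1 - (t + 1))) = 0) := by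
    intro t h1 h2
    have := dstep (hadj (2 * r + 1 - (t + 1)) (by omega) (by omega))
    rw [show 2 * r + 1 - (t + 1) + 1 = 2 * r + 1 - t by omega] at this
    omega
  have hmid := dstep (hadj r (by omega) (by omega))
  have ka := key a (by omega) ha
  have kb := key b hb hb'
  have od1 : ∀ t, t < r → BM r (fun t => dd k (x t)) t → dd k (x r) % 2 = 1 :=
    fun t ht h => branch_odd (fun t => dd k (x t)) hD1 t ht h
  have od2 : ∀ t, t < r → BM r (fun t => dd k (x (2 * r + 1 - t))) t →
      dd k (x (r + 1)) % 2 = 1 := by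
    intro t ht h
    have := branch_odd (fun t => dd k (x (2 * r + 1 - t))) hD2 t ht h
    rwa [show 2 * r + 1 - r = r + 1 by omega] at this
  rcases ka with ⟨h1, h2⟩ | ⟨h1, h2, h3⟩ | ⟨h1, h2⟩
  · have o1 := od1 a h1 h2
    rcases kb with ⟨g1, g2⟩ | ⟨g1, g2, g3⟩ | ⟨g1, g2⟩
    · exact branch_uni (fun t => dd k (x t)) hD1 a b hab g1 h2 g2
    · omega
    · have o2 := od2 _ (by omega) g2
      omega
  · rcases kb with ⟨g1, g2⟩ | ⟨g1, g2, g3⟩ | ⟨g1, g2⟩
    · omega
    · omega
    · have o2 := od2 _ (by omega) g2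
      omega
  · rcases kb with ⟨g1, g2⟩ | ⟨g1, g2, g3⟩ | ⟨g1, g2⟩
    · omega
    · omega
    · exact branch_uni (fun t => dd k (x (2 * r + 1 - t))) hD2 (2 * r - b) (2 * r - a) (by omega)
        (by omega) g2 h2

/-- an odd closed level sequence has a horizontal step -/
lemma exists_flat (y : ℕ → ℕ) (N : ℕ) (hl : ∀ t < N, ladj (y t) (y (t + 1))) (hN : N % 2 = 1)
    (hy : y N = y 0) : ∃ j, j < N ∧ y j = 1 ∧ y (j + 1) = 1 := by
  by_contra hcon
  push Not at hcon
  have : ∀ m, m ≤ N → (y 0 + y m) % 2 = m % 2 := by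
    intro m
    induction m with
    | zero => intro _; omega
    | succ m ih =>
        intro h
        have h1 := ih (by omega)
        have h2 := hl m (by omega)
        have h3 := hcon m (by omega)
        unfold ladj at h2
        omega
  have := this N le_rfl
  rw [hy] at this
  omega


end nums

section graph
variable {k r : ℕ}

/-- level of a vertex, with `z` on level `r + 1` -/
def lev {n : ℕ} : Option (Fin n × Fin r) → ℕ
  | some (_, i) => i + 1
  | none => r + 1

/-- position of a vertex, with `z` at position `0` -/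
def pos {n : ℕ} : Option (Fin n × Fin r) → ℕ
  | some (u, _) => u
  | none => 0

lemma cyc_adj_iff (hk : 1 ≤ k) (u v : Fin (2 * k + 1)) :
    (SimpleGraph.cycleGraph (2 * k + 1)).Adj u v ↔ cadj k u v := by
  have hu := u.isLt
  have hv := v.isLt
  rw [SimpleGraph.cycleGraph_adj']
  unfold cadj
  rcases lt_trichotomy (u : ℕ) (v : ℕ) with h | h | h
  · have h1 : (u - v).val = 2 * k + 1 + u - v := Fin.coe_sub_iff_lt.2 h
    have h2 : (v - u).val = v.val - u.val := Fin.coe_sub_iff_le.2 h.le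
    rw [h1, h2]
    omega
  · have h' : u = v := Fin.ext h
    subst h'
    rw [sub_self]
    simp only [Fin.val_zero]
    omega
  · have h1 : (v - u).val = 2 * k + 1 + v - u := Fin.coe_sub_iff_lt.2 h
    have h2 : (u - v).val = u.val - v.val := Fin.coe_sub_iff_le.2 h.le
    rw [h1, h2]
    omega

lemma adj_lev {a b : Option (Fin (2 * k + 1) × Fin r)}
    (h : (myc (SimpleGraph.cycleGraph (2 * k + 1)) r).Adj a b) : ladj (lev a) (lev b) := by
  unfold ladj
  match a, b, h with
  | some (u, i), some (v, j), h =>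
      have h2 := h.2
      simp only [lev]
      omega
  | some (u, i), none, h =>
      have h2 : (i : ℕ) + 1 = r := h
      simp only [lev]
      omega
  | none, some (v, j), h =>
      have h2 : (j : ℕ) + 1 = r := h
      simp only [lev]
      omega

lemma adj_pos (hk : 1 ≤ k) {a b : Option (Fin (2 * k + 1) × Fin r)}
    (h : (myc (SimpleGraph.cycleGraph (2 * k + 1)) r).Adj a b) (ha : a ≠ none) (hb : b ≠ none) :
    cadj k (pos a) (pos b) := by
  match a, b, h, ha, hb with
  | some (u, i), some (v, j), h, _, _ => exact (cyc_adj_iff hk u v).1 h.1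
  | some (u, i), none, h, _, hb => exact absurd rfl hb
  | none, some (v, j), h, ha, _ => exact absurd rfl ha

lemma pos_lt (a : Option (Fin (2 * k + 1) × Fin r)) : pos a < 2 * k + 1 := by
  match a with
  | some (u, i) => exact u.isLt
  | none => simp [pos]

lemma lev_pos (a : Option (Fin (2 * k + 1) × Fin r)) : 1 ≤ lev a := by
  match a with
  | some (u, i) => simp [lev]
  | none => simp [lev]

lemma ext_pos_lev {a b : Option (Fin (2 * k + 1) × Fin r)} (h1 : pos a = pos b)
    (h2 : lev a = lev b) : a = b := by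
  match a, b with
  | some (u, i), some (v, j) =>
      simp only [pos, lev] at h1 h2
      have e1 : u = v := Fin.ext h1
      have e2 : i = j := Fin.ext (by omega)
      rw [e1, e2]
  | some (u, i), none =>
      simp only [lev] at h2
      have := i.isLt
      omega
  | none, some (v, j) =>
      simp only [lev] at h2
      have := j.isLt
      omega
  | none, none => rfl

/-- the vertex with given position and level -/
def mk (k r x l : ℕ) : Option (Fin (2 * k + 1) × Fin r) :=
  if h : x < 2 * k + 1 ∧ 1 ≤ l ∧ l ≤ r then some (⟨x, h.1⟩, ⟨l - 1, by omega⟩) else none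

lemma mk_ne {x l : ℕ} (hx : x < 2 * k + 1) (h1 : 1 ≤ l) (h2 : l ≤ r) :
    mk k r x l = some (⟨x, hx⟩, ⟨l - 1, by omega⟩) := by
  unfold mk
  rw [dif_pos ⟨hx, h1, h2⟩]

lemma mk_adj (hk : 1 ≤ k) {x y l m : ℕ} (h : cadj k x y) (hl1 : 1 ≤ l) (hl2 : l ≤ r)
    (hm1 : 1 ≤ m) (hm2 : m ≤ r) (hlm : ladj l m) :
    (myc (SimpleGraph.cycleGraph (2 * k + 1)) r).Adj (mk k r x l) (mk k r y m) := by
  rw [mk_ne h.1 hl1 hl2, mk_ne h.2.1 hm1 hm2]
  refine ⟨(cyc_adj_iff hk _ _).2 h, ?_⟩
  unfold ladj at hlm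
  simp only
  omega

lemma val_succ {N : ℕ} (hN : 1 < N) (i : ZMod N) :
    (i.val + 1 < N ∧ (i + 1).val = i.val + 1) ∨ (i.val + 1 = N ∧ (i + 1).val = 0) := by
  have : NeZero N := ⟨by omega⟩
  have : Fact (1 < N) := ⟨hN⟩
  have h1 : (i + 1).val = (i.val + 1) % N := by rw [ZMod.val_add, ZMod.val_one]
  have h2 := ZMod.val_lt i
  by_cases h : i.val + 1 < N
  · left
    exact ⟨h, by rw [h1, Nat.mod_eq_of_lt h]⟩
  · right
    have h3 : i.val + 1 = N := by omega
    exact ⟨h3, by rw [h1, h3, Nat.mod_self]⟩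

/-- the base cycle -/
lemma base_cyc (hk : 1 ≤ k) (hr : 1 ≤ r) :
    IsCyc (myc (SimpleGraph.cycleGraph (2 * k + 1)) r) (2 * k + 1)
      (fun i => mk k r i.val 1) := by
  have : NeZero (2 * k + 1) := ⟨by omega⟩
  refine ⟨by omega, ?_, ?_⟩
  · intro i j h
    simp only at h
    rw [mk_ne (ZMod.val_lt i) le_rfl hr, mk_ne (ZMod.val_lt j) le_rfl hr] at h
    have h1 := congrArg pos h
    simp only [pos] at h1
    exact ZMod.val_injective _ h1
  · intro i
    have h1 := ZMod.val_lt i
    refine mk_adj hk ?_ le_rfl hr le_rfl hr (Or.inl ⟨rfl, rfl⟩)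
    unfold cadj
    rcases val_succ (by omega : 1 < 2 * k + 1) i with ⟨h2, h3⟩ | ⟨h2, h3⟩ <;> rw [h3] <;> omega

/-- the sequence of a short cycle through `z` -/
def zz (k r t : ℕ) : Option (Fin (2 * k + 1) × Fin r) :=
  if t = 0 then none else if t ≤ r then mk k r ((r + 1 - t) % 2) (r + 1 - t) else
    mk k r ((t - r + 1) % 2) (t - r)

lemma zz_cyc (hk : 1 ≤ k) (hr : 1 ≤ r) :
    IsCyc (myc (SimpleGraph.cycleGraph (2 * k + 1)) r) (2 * r + 1)
      (fun i => zz k r i.val) := by
  have : NeZero (2 * r + 1) := ⟨by omega⟩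
  have z0 : zz k r 0 = none := by simp [zz]
  have z1 : ∀ t, 1 ≤ t → t ≤ r → zz k r t = mk k r ((r + 1 - t) % 2) (r + 1 - t) := by
    intro t h1 h2
    unfold zz
    rw [if_neg (by omega), if_pos h2]
  have z2 : ∀ t, r < t → zz k r t = mk k r ((t - r + 1) % 2) (t - r) := by
    intro t h1
    unfold zz
    rw [if_neg (by omega), if_neg (by omega)]
  refine ⟨by omega, ?_, ?_⟩
  · intro i j h
    apply ZMod.val_injective
    simp only at h
    have hi := ZMod.val_lt i
    have hj := ZMod.val_lt j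
    generalize i.val = a at *
    generalize j.val = b at *
    have pl : ∀ t, t < 2 * r + 1 →
        (t = 0 ∧ lev (zz k r t) = r + 1 ∧ pos (zz k r t) = 0) ∨
        (1 ≤ t ∧ t ≤ r ∧ lev (zz k r t) = r + 1 - t ∧ pos (zz k r t) = (r + 1 - t) % 2) ∨
        (r < t ∧ lev (zz k r t) = t - r ∧ pos (zz k r t) = (t - r + 1) % 2) := by
      intro t ht
      rcases Nat.eq_zero_or_pos t with h0 | h0
      · left
        subst h0
        rw [z0]
        exact ⟨rfl, rfl, rfl⟩
      right
      rcases le_or_gt t r with h1 | h1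
      · left
        rw [z1 t h0 h1, mk_ne (by omega) (by omega) (by omega)]
        refine ⟨h0, h1, ?_, rfl⟩
        show r + 1 - t - 1 + 1 = r + 1 - t
        omega
      · right
        rw [z2 t h1, mk_ne (by omega) (by omega) (by omega)]
        refine ⟨h1, ?_, rfl⟩
        show t - r - 1 + 1 = t - r
        omega
    have pa := pl a hi
    have pb := pl b hj
    rw [h] at pa
    omega
  · intro i
    simp only
    have h1 := ZMod.val_lt i
    have nz : ∀ x, x < 2 * k + 1 →
        (myc (SimpleGraph.cycleGraph (2 * k + 1)) r).Adj (mk k r x r) none := by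
      intro x hx
      rw [mk_ne hx hr le_rfl]
      show r - 1 + 1 = r
      omega
    rcases val_succ (by omega : 1 < 2 * r + 1) i with ⟨h2, h3⟩ | ⟨h2, h3⟩
    · rw [h3]
      generalize i.val = a at *
      rcases Nat.eq_zero_or_pos a with h0 | h0
      · subst h0
        rw [z0, z1 (0 + 1) (by omega) (by omega)]
        have := nz ((r + 1 - (0 + 1)) % 2) (by omega)
        rw [show r + 1 - (0 + 1) = r by omega] at *
        exact this.symm
      · rcases lt_trichotomy a r with h4 | h4 | h4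
        · rw [z1 a h0 h4.le, z1 (a + 1) (by omega) (by omega)]
          refine mk_adj hk ?_ (by omega) (by omega) (by omega) (by omega) ?_
          · unfold cadj; omega
          · unfold ladj; omega
        · rw [z1 a h0 h4.le, z2 (a + 1) (by omega)]
          refine mk_adj hk ?_ (by omega) (by omega) (by omega) (by omega) ?_
          · unfold cadj; omega
          · unfold ladj; omega
        · rw [z2 a h4, z2 (a + 1) (by omega)]
          refine mk_adj hk ?_ (by omega) (by omega) (by omega) (by omega) ?_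
          · unfold cadj; omega
          · unfold ladj; omega
    · rw [h3, z0, z2 _ (by omega)]
      have := nz ((i.val - r + 1) % 2) (by omega)
      rw [show i.val - r = r by omega] at *
      exact this

lemma cast_succ' {N : ℕ} (t : ℕ) : ((t + 1 : ℕ) : ZMod N) = (t : ZMod N) + 1 := by
  push_cast; rfl

/-- the vertex bipartition -/
def cut (k r : ℕ) (a : Option (Fin (2 * k + 1) × Fin r)) : Bool := SS k (pos a) (lev a)

lemma uni_of_z (hk : 1 ≤ k) (hr : 1 ≤ r) (L : ℕ) (c : ZMod L → Option (Fin (2 * k + 1) × Fin r))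
    (hc : IsCyc (myc (SimpleGraph.cycleGraph (2 * k + 1)) r) L c) (hodd : Odd L)
    (hL : L ≤ 2 * r + 1) (h0 : c 0 = none) : Uni (cut k r) L c := by
  obtain ⟨hL3, hinj, hadj⟩ := hc
  have hne : NeZero L := ⟨by omega⟩
  set x : ℕ → ℕ := fun t => pos (c (t : ZMod L)) with hx
  set y : ℕ → ℕ := fun t => lev (c (t : ZMod L)) with hy
  have hadj' : ∀ t : ℕ, (myc (SimpleGraph.cycleGraph (2 * k + 1)) r).Adj (c (t : ZMod L))
      (c ((t + 1 : ℕ) : ZMod L)) := by
    intro t
    rw [cast_succ']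
    exact hadj (t : ZMod L)
  have hl : ∀ t < L, ladj (y t) (y (t + 1)) := fun t _ => adj_lev (hadj' t)
  have hLL : c ((L : ℕ) : ZMod L) = none := by rw [ZMod.natCast_self]; exact h0
  have h00 : c ((0 : ℕ) : ZMod L) = none := by rw [Nat.cast_zero]; exact h0
  have y0 : y 0 = r + 1 := by show lev (c ((0 : ℕ) : ZMod L)) = r + 1; rw [h00]; rfl
  have yL : y L = r + 1 := by show lev (c ((L : ℕ) : ZMod L)) = r + 1; rw [hLL]; rfl
  have x0 : x 0 = 0 := by show pos (c ((0 : ℕ) : ZMod L)) = 0; rw [h00]; rfl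
  have xL : x L = 0 := by show pos (c ((L : ℕ) : ZMod L)) = 0; rw [hLL]; rfl
  obtain ⟨j, hj, hj1, hj2⟩ := exists_flat y L hl (Nat.odd_iff.1 hodd) (by rw [y0, yL])
  have e1 := lip y L hl 0 j (by omega)
  have e2 := lip y L hl (j + 1) (L - (j + 1)) (by omega)
  rw [zero_add] at e1
  rw [show j + 1 + (L - (j + 1)) = L by omega] at e2
  have hL' : L = 2 * r + 1 := by omega
  have hj' : j = r := by omega
  have hya : ∀ t, t ≤ r → y t + t = r + 1 := by
    intro t ht
    have f1 := lip y L hl 0 t (by omega)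
    have f2 := lip y L hl t (r - t) (by omega)
    rw [zero_add] at f1
    rw [show t + (r - t) = r by omega] at f2
    rw [hj'] at hj1
    omega
  have hyb : ∀ t, r + 1 ≤ t → t ≤ 2 * r + 1 → y t + r = t := by
    intro t ht1 ht2
    have f1 := lip y L hl (r + 1) (t - (r + 1)) (by omega)
    have f2 := lip y L hl t (L - t) (by omega)
    rw [show r + 1 + (t - (r + 1)) = t by omega] at f1
    rw [show t + (L - t) = L by omega] at f2
    rw [hj'] at hj2
    omega
  have hnn : ∀ t : ℕ, 1 ≤ t → t < L → c (t : ZMod L) ≠ none := by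
    intro t h1 h2 h3
    have h4 := hinj (h3.trans h0.symm)
    rw [ZMod.natCast_eq_zero_iff] at h4
    have := Nat.le_of_dvd (by omega) h4
    omega
  have hca : ∀ t, 1 ≤ t → t < 2 * r → cadj k (x t) (x (t + 1)) := by
    intro t h1 h2
    exact adj_pos hk (hadj' t) (hnn t h1 (by omega)) (hnn (t + 1) (by omega) (by omega))
  have hlt : ∀ t, 1 ≤ t → t ≤ 2 * r → x t < 2 * k + 1 := fun t _ _ => pos_lt _
  have main : ∀ a b : ℕ, a < b → b < L → cut k r (c (a : ZMod L)) = cut k r (c ((a : ZMod L) + 1)) →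
      cut k r (c (b : ZMod L)) = cut k r (c ((b : ZMod L) + 1)) → False := by
    intro a b hab hb h1 h2
    rw [← cast_succ'] at h1 h2
    exact caseB hr x y x0 (by rw [← hL']; exact xL) hya hyb hca hlt a b hab (by omega) h1 h2
  intro i j hi hj
  have ei : ((i.val : ℕ) : ZMod L) = i := ZMod.natCast_zmod_val i
  have ej : ((j.val : ℕ) : ZMod L) = j := ZMod.natCast_zmod_val j
  apply ZMod.val_injective
  rw [← ei] at hi
  rw [← ej] at hj
  rcases lt_trichotomy i.val j.val with h | h | h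
  · exact (main _ _ h (ZMod.val_lt j) hi hj).elim
  · exact h
  · exact (main _ _ h (ZMod.val_lt i) hj hi).elim

lemma uni_of_pos (hk : 1 ≤ k) (c : ZMod (2 * k + 1) → Option (Fin (2 * k + 1) × Fin r))
    (hc : IsCyc (myc (SimpleGraph.cycleGraph (2 * k + 1)) r) (2 * k + 1) c)
    (hp : ∀ i, ((pos (c i) : ℕ) : ZMod (2 * k + 1)) = i) :
    Uni (cut k r) (2 * k + 1) c := by
  obtain ⟨hL3, hinj, hadj⟩ := hc
  have hne : NeZero (2 * k + 1) := ⟨by omega⟩
  have hadj' : ∀ t : ℕ, (myc (SimpleGraph.cycleGraph (2 * k + 1)) r).Adj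
      (c (t : ZMod (2 * k + 1))) (c ((t + 1 : ℕ) : ZMod (2 * k + 1))) := by
    intro t
    rw [cast_succ']
    exact hadj (t : ZMod (2 * k + 1))
  set x : ℕ → ℕ := fun t => pos (c (t : ZMod (2 * k + 1))) with hx
  set y : ℕ → ℕ := fun t => lev (c (t : ZMod (2 * k + 1))) with hy
  have hl : ∀ t < 2 * k + 1, ladj (y t) (y (t + 1)) := fun t _ => adj_lev (hadj' t)
  have hx1 : ∀ t, t < 2 * k + 1 → x t = t := by
    intro t ht
    have h1 := congrArg ZMod.val (hp (t : ZMod (2 * k + 1)))
    rw [ZMod.val_natCast, ZMod.val_natCast, Nat.mod_eq_of_lt ht,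
      Nat.mod_eq_of_lt (pos_lt _)] at h1
    exact h1
  have e0 : ((2 * k + 1 : ℕ) : ZMod (2 * k + 1)) = ((0 : ℕ) : ZMod (2 * k + 1)) := by
    rw [ZMod.natCast_self, Nat.cast_zero]
  have hxn : x (2 * k + 1) = 0 := by
    have h1 : x (2 * k + 1) = x 0 := by
      show pos (c ((2 * k + 1 : ℕ) : ZMod (2 * k + 1))) = pos (c ((0 : ℕ) : ZMod (2 * k + 1)))
      rw [e0]
    rw [h1, hx1 0 (by omega)]
  have hyn : y (2 * k + 1) = y 0 := by
    show lev (c ((2 * k + 1 : ℕ) : ZMod (2 * k + 1))) = lev (c ((0 : ℕ) : ZMod (2 * k + 1)))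
    rw [e0]
  have main : ∀ a b : ℕ, a < b → b < 2 * k + 1 →
      cut k r (c (a : ZMod (2 * k + 1))) = cut k r (c ((a : ZMod (2 * k + 1)) + 1)) →
      cut k r (c (b : ZMod (2 * k + 1))) = cut k r (c ((b : ZMod (2 * k + 1)) + 1)) → False := by
    intro a b hab hb h1 h2
    rw [← cast_succ'] at h1 h2
    exact caseA hk x y hx1 hxn (fun t => lev_pos _) hyn hl a b hab hb h1 h2
  intro i j hi hj
  have ei : ((i.val : ℕ) : ZMod (2 * k + 1)) = i := ZMod.natCast_zmod_val i
  have ej : ((j.val : ℕ) : ZMod (2 * k + 1)) = j := ZMod.natCast_zmod_val j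
  apply ZMod.val_injective
  rw [← ei] at hi
  rw [← ej] at hj
  rcases lt_trichotomy i.val j.val with h | h | h
  · exact (main _ _ h (ZMod.val_lt j) hi hj).elim
  · exact h
  · exact (main _ _ h (ZMod.val_lt i) hj hi).elim

lemma isCyc_shift {V : Type} {G : SimpleGraph V} {L : ℕ} {c : ZMod L → V} (h : IsCyc G L c)
    (a : ZMod L) : IsCyc G L (fun i => c (i + a)) := by
  refine ⟨h.1, fun i j hij => add_left_injective a (h.2.1 hij), fun i => ?_⟩
  have := h.2.2 (i + a)
  rwa [show i + a + 1 = i + 1 + a by ring] at this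

lemma isCyc_neg {V : Type} {G : SimpleGraph V} {L : ℕ} {c : ZMod L → V} (h : IsCyc G L c) :
    IsCyc G L (fun i => c (-i)) := by
  refine ⟨h.1, fun i j hij => neg_injective (h.2.1 hij), fun i => ?_⟩
  have := (h.2.2 (-(i + 1))).symm
  rwa [show -(i + 1) + 1 = -i by ring] at this

lemma uni_of_step (hk : 1 ≤ k) (c : ZMod (2 * k + 1) → Option (Fin (2 * k + 1) × Fin r))
    (hc : IsCyc (myc (SimpleGraph.cycleGraph (2 * k + 1)) r) (2 * k + 1) c)
    (hp : ∀ i, ((pos (c (i + 1)) : ℕ) : ZMod (2 * k + 1)) = ((pos (c i) : ℕ) : ZMod (2 * k + 1)) + 1) :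
    Uni (cut k r) (2 * k + 1) c := by
  have hne : NeZero (2 * k + 1) := ⟨by omega⟩
  have h1 : ∀ t : ℕ, ((pos (c (t : ZMod (2 * k + 1))) : ℕ) : ZMod (2 * k + 1)) =
      ((pos (c 0) : ℕ) : ZMod (2 * k + 1)) + t := by
    intro t
    induction t with
    | zero => simp
    | succ t ih => rw [Nat.cast_add, Nat.cast_one, hp, ih]; ring
  have h2 : ∀ i : ZMod (2 * k + 1), ((pos (c i) : ℕ) : ZMod (2 * k + 1)) =
      ((pos (c 0) : ℕ) : ZMod (2 * k + 1)) + i := by
    intro i
    have := h1 i.val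
    rwa [ZMod.natCast_zmod_val] at this
  apply uni_shift (cut k r) _ c (-((pos (c 0) : ℕ) : ZMod (2 * k + 1)))
  apply uni_of_pos hk _ (isCyc_shift hc _)
  intro i
  rw [h2]
  ring

lemma uni_of_not_z (hk : 1 ≤ k) (L : ℕ) (c : ZMod L → Option (Fin (2 * k + 1) × Fin r))
    (hc : IsCyc (myc (SimpleGraph.cycleGraph (2 * k + 1)) r) L c) (hodd : Odd L)
    (hL : L ≤ 2 * k + 1) (h0 : ∀ i, c i ≠ none) : Uni (cut k r) L c := by
  have hne : NeZero L := ⟨by have := hc.1; omega⟩
  have hstep : ∀ i : ZMod L, ∃ e : ℤ, (e = 1 ∨ e = -1) ∧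
      ((pos (c (i + 1)) : ℕ) : ZMod (2 * k + 1)) = ((pos (c i) : ℕ) : ZMod (2 * k + 1)) + e := by
    intro i
    have h1 := adj_pos hk (hc.2.2 i) (h0 i) (h0 (i + 1))
    have h2 : (((2 * k : ℕ) : ZMod (2 * k + 1))) = -1 := by
      have : (((2 * k + 1 : ℕ) : ZMod (2 * k + 1))) = 0 := ZMod.natCast_self _
      rw [Nat.cast_add, Nat.cast_one] at this
      exact eq_neg_of_add_eq_zero_left this
    obtain ⟨_, _, h | h | ⟨h, h'⟩ | ⟨h, h'⟩⟩ := h1
    · exact ⟨1, Or.inl rfl, by rw [h]; push_cast; ring⟩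
    · exact ⟨-1, Or.inr rfl, by rw [h]; push_cast; ring⟩
    · exact ⟨-1, Or.inr rfl, by rw [h', h, h2]; push_cast; ring⟩
    · exact ⟨1, Or.inl rfl, by rw [h', h, h2]; push_cast; ring⟩
  choose e he1 he2 using hstep
  set f : ℕ → ℤ := fun m => ∑ t ∈ Finset.range m, e (t : ZMod L) with hf
  have hf1 : ∀ m, f (m + 1) = f m + e (m : ZMod L) := fun m => Finset.sum_range_succ _ _
  have hf0 : f 0 = 0 := by simp [hf]
  have A : ∀ m : ℕ, |f m| ≤ m ∧ (f m - m) % 2 = 0 ∧
      ((pos (c (m : ZMod L)) : ℕ) : ZMod (2 * k + 1)) =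
        ((pos (c 0) : ℕ) : ZMod (2 * k + 1)) + (f m : ZMod (2 * k + 1)) := by
    intro m
    induction m with
    | zero => rw [hf0]; simp
    | succ m ih =>
        obtain ⟨i1, i2, i3⟩ := ih
        rw [abs_le] at i1 ⊢
        rw [hf1]
        refine ⟨?_, ?_, ?_⟩
        · rcases he1 (m : ZMod L) with h | h <;> rw [h] <;> push_cast <;> omega
        · rcases he1 (m : ZMod L) with h | h <;> rw [h] <;> push_cast <;> omega
        · rw [Nat.cast_add, Nat.cast_one, he2, i3]; push_cast; ring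
  obtain ⟨a1, a2, a3⟩ := A L
  rw [ZMod.natCast_self] at a3
  have a4 : ((f L : ℤ) : ZMod (2 * k + 1)) = 0 := left_eq_add.1 a3
  rw [ZMod.intCast_zmod_eq_zero_iff_dvd] at a4
  obtain ⟨q, hq⟩ := a4
  obtain ⟨w, hw⟩ := hodd
  have hL3 := hc.1
  rw [abs_le] at a1
  have hq0 : q ≠ 0 := by
    rintro rfl
    rw [mul_zero] at hq
    rw [hq, hw] at a2
    push_cast at a2
    omega
  have hcase : (f L = L ∧ L = 2 * k + 1) ∨ (f L = -L ∧ L = 2 * k + 1) := by
    push_cast at hq
    rcases lt_trichotomy q 0 with h | h | h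
    · right
      have h1 : f L ≤ -(2 * k + 1) := by rw [hq]; nlinarith
      constructor <;> omega
    · exact absurd h hq0
    · left
      have h1 : (2 * k + 1 : ℤ) ≤ f L := by rw [hq]; nlinarith
      constructor <;> omega
  rcases hcase with ⟨h1, h2⟩ | ⟨h1, h2⟩
  · have h3 : ∀ t ∈ Finset.range L, (1 - e (t : ZMod L)) = 0 := by
      apply (Finset.sum_eq_zero_iff_of_nonneg ?_).1
      · rw [Finset.sum_sub_distrib]
        have : (∑ t ∈ Finset.range L, e (t : ZMod L)) = f L := rfl
        rw [this, h1]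
        simp
      · intro t _
        rcases he1 (t : ZMod L) with h | h <;> rw [h] <;> norm_num
    have h4 : ∀ i : ZMod L, e i = 1 := by
      intro i
      have := h3 i.val (Finset.mem_range.2 (ZMod.val_lt i))
      rw [ZMod.natCast_zmod_val] at this
      omega
    subst h2
    apply uni_of_step hk c hc
    intro i
    rw [he2, h4]
    push_cast
    ring
  · have h3 : ∀ t ∈ Finset.range L, (1 + e (t : ZMod L)) = 0 := by
      apply (Finset.sum_eq_zero_iff_of_nonneg ?_).1
      · rw [Finset.sum_add_distrib]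
        have : (∑ t ∈ Finset.range L, e (t : ZMod L)) = f L := rfl
        rw [this, h1]
        simp
      · intro t _
        rcases he1 (t : ZMod L) with h | h <;> rw [h] <;> norm_num
    have h4 : ∀ i : ZMod L, e i = -1 := by
      intro i
      have := h3 i.val (Finset.mem_range.2 (ZMod.val_lt i))
      rw [ZMod.natCast_zmod_val] at this
      omega
    subst h2
    apply uni_neg
    apply uni_of_step hk _ (isCyc_neg hc)
    intro i
    have h5 := he2 (-(i + 1))
    rw [h4, show -(i + 1) + 1 = -i by ring] at h5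
    rw [h5]
    push_cast
    ring

end graph

/-- the generalized Mycielski graph of an odd cycle has an orientation in which every shortest odd
cycle is alternating -/
theorem result : ∀ r k : ℕ, 1 ≤ r → 1 ≤ k →
    ∃ O : Option (Fin (2 * k + 1) × Fin r) → Option (Fin (2 * k + 1) × Fin r) → Prop,
      IsOrientation (myc (SimpleGraph.cycleGraph (2 * k + 1)) r) O ∧
      ∀ (L : ℕ) (c : ZMod L → Option (Fin (2 * k + 1) × Fin r)),
        IsShortestOddCyc (myc (SimpleGraph.cycleGraph (2 * k + 1)) r) L c →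
          Alternating O L c := by
  intro r k hr hk
  obtain ⟨e, he⟩ := Countable.exists_injective_nat (Option (Fin (2 * k + 1) × Fin r))
  refine ⟨ori (myc (SimpleGraph.cycleGraph (2 * k + 1)) r) (cut k r) e,
    ori_isOrientation _ e he, ?_⟩
  intro L c hc
  obtain ⟨hcyc, hodd, hmin⟩ := hc
  apply alternating_of_uni _ e he L c hcyc
  have b1 : L ≤ 2 * k + 1 := hmin _ _ (base_cyc hk hr) ⟨k, rfl⟩
  have b2 : L ≤ 2 * r + 1 := hmin _ _ (zz_cyc hk hr) ⟨r, rfl⟩
  by_cases h : ∃ p, c p = none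
  · obtain ⟨p, hp⟩ := h
    apply uni_shift _ L c p
    exact uni_of_z hk hr L _ (isCyc_shift hcyc p) hodd b2 (by simpa using hp)
  · push Not at h
    exact uni_of_not_z hk L c hcyc hodd b1 h

end Pool.Agent.Results.MP_118fda_co.AlternatingMycielski
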